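import Pool.Agent.X35.CM.Quart
import Pool.Agent.X35.GV.Win

/-! The proportion of the curves `y² = x³ - n x` modulo `p` with a given trace of Frobenius. -/

set_option autoImplicit false

namespace Pool.Agent.X35.CM
open Finset
open Pool.Agent.H304R2.EC.Pts

/-- The trace of Frobenius of `y² = x³ - n x` at an odd prime `p ∤ n`, `- ∑_{x mod p} ((x³ - n x) / p)`. -/
def ap (n : ℤ) (p : ℕ) : ℤ := -∑ x ∈ range p, jacobiSym ((x : ℤ) ^ 3 - n * x) p

lemma ap_eq (n : ℤ) (p : ℕ) [hF : Fact p.Prime] : ap n p = -SS (n : ZMod p) := by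
  unfold ap SS
  congr 1
  refine sum_bij' (fun i _ => (i : ZMod p)) (fun x _ => x.val) (fun i _ => mem_univ _)
    (fun x _ => mem_range.2 (ZMod.val_lt x)) (fun i hi => ?_) (fun x _ => ?_) (fun i _ => ?_)
  · exact ZMod.val_natCast_of_lt (mem_range.1 hi)
  · exact ZMod.natCast_zmod_val x
  · rw [← jacobiSym.legendreSym.to_jacobiSym]
    unfold legendreSym
    congr 1
    push_cast
    ring

/-- The curve has good reduction at `p` (`p ∤ 2 n`) and trace `t`. -/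
def HasTrace (p : ℕ) (t n : ℤ) : Prop := p ≠ 2 ∧ ¬ (p : ℤ) ∣ n ∧ ap n p = t

lemma ap_congr (p : ℕ) {n n' : ℤ} (h : n ≡ n' [ZMOD p]) : ap n p = ap n' p := by
  unfold ap
  congr 1
  refine sum_congr rfl fun x _ => ?_
  rw [jacobiSym.mod_left, jacobiSym.mod_left ((x : ℤ) ^ 3 - n' * x)]
  congr 1
  exact (Int.ModEq.refl _).sub (h.mul_right _)

lemma hasTrace_congr (p : ℕ) (t : ℤ) {n n' : ℤ} (h : n ≡ n' [ZMOD p]) : HasTrace p t n ↔ HasTrace p t n' := by
  unfold HasTrace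
  rw [ap_congr p h, h.dvd_iff]

open Classical in
theorem prob_eq (p : ℕ) (hp : p.Prime) (t : ℤ) (ht : t ≠ 0) :
    Pool.Agent.X35.GV.prob p (HasTrace p t) =
      if p ≠ 2 ∧ ∃ w : ℤ, t ^ 2 + w ^ 2 = 4 * p then 1 / 4 - 1 / (4 * (p : ℝ)) else 0 := by
  haveI := Fact.mk hp
  have hp0 : (p : ℝ) ≠ 0 := by exact_mod_cast hp.ne_zero
  unfold Pool.Agent.X35.GV.prob
  by_cases h2 : p = 2
  · rw [if_neg (fun h => h.1 h2), filter_false_of_mem (fun n _ h => h.1 h2), card_empty, Nat.cast_zero, zero_div]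
  have hc : ((range p).filter (fun n : ℕ => HasTrace p t n)).card =
      ((univ : Finset (ZMod p)).filter (fun a => a ≠ 0 ∧ SS a = -t)).card := by
    refine card_bij' (fun i _ => (i : ZMod p)) (fun x _ => x.val) ?_ ?_ ?_ ?_
    · intro i hi
      rw [mem_filter] at hi ⊢
      refine ⟨mem_univ _, ?_, ?_⟩
      · intro h
        apply hi.2.2.1
        have h3 : ((i : ℤ) : ZMod p) = 0 := by rw [Int.cast_natCast]; exact h
        exact (ZMod.intCast_zmod_eq_zero_iff_dvd _ _).1 h3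
      · have h3 := hi.2.2.2
        rw [ap_eq, Int.cast_natCast] at h3
        linarith
    · intro x hx
      rw [mem_filter] at hx ⊢
      refine ⟨mem_range.2 (ZMod.val_lt x), h2, ?_, ?_⟩
      · intro h
        have h3 := (ZMod.intCast_zmod_eq_zero_iff_dvd _ _).2 h
        rw [Int.cast_natCast, ZMod.natCast_zmod_val] at h3
        exact hx.2.1 h3
      · rw [ap_eq, Int.cast_natCast, ZMod.natCast_zmod_val, hx.2.2, neg_neg]
    · intro i hi
      rw [mem_filter] at hi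
      exact ZMod.val_natCast_of_lt (mem_range.1 hi.1)
    · intro x _
      exact ZMod.natCast_zmod_val x
  have h4 := card_SS (p := p) h2 (-t) (neg_ne_zero.2 ht)
  rw [← hc, neg_sq] at h4
  by_cases hw : ∃ w : ℤ, t ^ 2 + w ^ 2 = 4 * p
  · rw [if_pos hw] at h4
    rw [if_pos ⟨h2, hw⟩]
    have h5 : 4 * (((range p).filter (fun n : ℕ => HasTrace p t n)).card : ℝ) = (p : ℝ) - 1 := by exact_mod_cast h4
    field_simp
    linarith
  · rw [if_neg hw] at h4
    rw [if_neg (fun h => hw h.2)]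
    have h5 : 4 * (((range p).filter (fun n : ℕ => HasTrace p t n)).card : ℝ) = 0 := by exact_mod_cast h4
    rw [div_eq_zero_iff]
    left
    linarith

lemma sum_inv_sq (S : Finset ℕ) (h : ∀ k ∈ S, 1 ≤ k) : ∑ k ∈ S, ((k : ℝ) ^ 2)⁻¹ ≤ 2 := by
  obtain ⟨n, hn1, hn⟩ : ∃ n, 1 ≤ n ∧ ∀ k ∈ S, k ≤ n := ⟨S.sup id + 1, by omega, fun k hk => by
    have := Finset.le_sup (f := id) hk
    simp only [id] at this
    omega⟩
  have hsub : S ⊆ insert 1 (Ioc 1 n) := by
    intro k hk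
    rw [mem_insert, mem_Ioc]
    have := h k hk
    have := hn k hk
    omega
  calc ∑ k ∈ S, ((k : ℝ) ^ 2)⁻¹ ≤ ∑ k ∈ insert 1 (Ioc 1 n), ((k : ℝ) ^ 2)⁻¹ :=
        sum_le_sum_of_subset_of_nonneg hsub fun k _ _ => by positivity
    _ = 1 + ∑ k ∈ Ioc 1 n, ((k : ℝ) ^ 2)⁻¹ := by
        rw [sum_insert (by simp)]
        norm_num
    _ ≤ 1 + ((1 : ℝ)⁻¹ - (n : ℝ)⁻¹) := by
        have := sum_Ioc_inv_sq_le_sub (α := ℝ) (k := 1) (n := n) one_ne_zero hn1
        rw [Nat.cast_one] at this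
        linarith
    _ ≤ 2 := by
        have : (0 : ℝ) ≤ (n : ℝ)⁻¹ := by positivity
        rw [inv_one]
        linarith

open Classical in
/-- the primes `p ≤ x` such that `4 p - t²` is a square -/
noncomputable def reps (t : ℤ) (x : ℕ) : Finset ℕ :=
  ((range (x + 1)).filter Nat.Prime).filter (fun p => p ≠ 2 ∧ ∃ w : ℤ, t ^ 2 + w ^ 2 = 4 * p)

lemma sum_inv_reps (t : ℤ) (x : ℕ) : ∑ p ∈ reps t x, (1 : ℝ) / (4 * p) ≤ 2 := by
  classical
  have hch : ∀ p ∈ reps t x, ∃ w : ℕ, t ^ 2 + (w : ℤ) ^ 2 = 4 * p ∧ 1 ≤ w := by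
    intro p hp
    unfold reps at hp
    rw [mem_filter, mem_filter] at hp
    obtain ⟨w, hw⟩ := hp.2.2
    refine ⟨w.natAbs, by rw [Int.natAbs_sq]; exact hw, ?_⟩
    by_contra hcon
    have hw0 : w.natAbs = 0 := by omega
    rw [Int.natAbs_eq_zero] at hw0
    rw [hw0] at hw
    have hp' := hp.1.2
    have h1 : (p : ℤ) ∣ t ^ 2 := ⟨4, by linarith⟩
    obtain ⟨c, hc⟩ := (Nat.prime_iff_prime_int.1 hp').dvd_of_dvd_pow h1
    rw [hc] at hw
    have hp0 : (p : ℤ) ≠ 0 := by exact_mod_cast hp'.ne_zero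
    have h6 : (p : ℤ) * c ^ 2 = 4 := by
      apply mul_left_cancel₀ hp0
      linear_combination hw
    have h7 : (p : ℤ) ∣ 4 := ⟨_, h6.symm⟩
    have h8 : p ∣ 2 ^ 2 := by exact_mod_cast h7
    exact hp.2.1 ((Nat.prime_dvd_prime_iff_eq hp' Nat.prime_two).1 (hp'.dvd_of_dvd_pow h8))
  choose! w hw hw1 using hch
  have hinj : Set.InjOn w (reps t x : Set ℕ) := by
    intro p hp p' hp' h
    have h1 := hw p hp
    have h2 := hw p' hp'
    rw [h] at h1
    have h3 : (p : ℤ) = p' := by linarith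
    exact_mod_cast h3
  calc ∑ p ∈ reps t x, (1 : ℝ) / (4 * p) ≤ ∑ p ∈ reps t x, (((w p : ℕ) : ℝ) ^ 2)⁻¹ := by
        refine sum_le_sum fun p hp => ?_
        have h1 : (t : ℝ) ^ 2 + ((w p : ℕ) : ℝ) ^ 2 = 4 * p := by exact_mod_cast hw p hp
        have h2 : (1 : ℝ) ≤ ((w p : ℕ) : ℝ) := by exact_mod_cast hw1 p hp
        rw [← one_div]
        apply one_div_le_one_div_of_le (by positivity)
        nlinarith [sq_nonneg (t : ℝ)]
    _ = ∑ k ∈ (reps t x).image w, ((k : ℝ) ^ 2)⁻¹ := by rw [sum_image hinj]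
    _ ≤ 2 := by
        apply sum_inv_sq
        intro k hk
        rw [mem_image] at hk
        obtain ⟨p, hp, rfl⟩ := hk
        exact hw1 p hp

/-- the expected number -/
theorem sum_prob (t : ℤ) (ht : t ≠ 0) (x : ℕ) :
    ∑ p ∈ (range (x + 1)).filter Nat.Prime, Pool.Agent.X35.GV.prob p (HasTrace p t) ≤ ((reps t x).card : ℝ) / 4 ∧
    ((reps t x).card : ℝ) / 4 - 2 ≤ ∑ p ∈ (range (x + 1)).filter Nat.Prime, Pool.Agent.X35.GV.prob p (HasTrace p t) := by
  classical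
  have h1 : ∑ p ∈ (range (x + 1)).filter Nat.Prime, Pool.Agent.X35.GV.prob p (HasTrace p t) =
      ((reps t x).card : ℝ) / 4 - ∑ p ∈ reps t x, (1 : ℝ) / (4 * p) := by
    have h2 : ∀ p ∈ (range (x + 1)).filter Nat.Prime, Pool.Agent.X35.GV.prob p (HasTrace p t) =
        if p ≠ 2 ∧ ∃ w : ℤ, t ^ 2 + w ^ 2 = 4 * p then 1 / 4 - 1 / (4 * (p : ℝ)) else 0 := by
      intro p hp
      rw [mem_filter] at hp
      exact prob_eq p hp.2 t ht
    rw [sum_congr rfl h2, ← sum_filter, sum_sub_distrib, sum_const, nsmul_eq_mul]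
    unfold reps
    ring
  have h3 := sum_inv_reps t x
  have h4 : 0 ≤ ∑ p ∈ reps t x, (1 : ℝ) / (4 * p) := sum_nonneg fun p _ => by positivity
  constructor <;> linarith

end Pool.Agent.X35.CM
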