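import Pool.Agent.H304R2.EC.Points

/-! The distribution of the Jacobsthal sums `SS a` over the residues `a` modulo `p`. -/

set_option autoImplicit false

namespace Pool.Agent.X35.CM
open Finset
open Pool.Agent.H304R2.EC.Pts

variable {p : ℕ} [hF : Fact p.Prime]

lemma SS_vanish (h1 : qc p (-1) = -1) (a : ZMod p) : SS a = 0 := by
  have h := SS_scale a (-1) (neg_ne_zero.2 one_ne_zero)
  rw [h1] at h
  have h2 : a * (-1) ^ 2 = a := by ring
  rw [h2] at h
  linarith

lemma qc_val {a : ZMod p} (ha : a ≠ 0) : qc p a = 1 ∨ qc p a = -1 := quadraticChar_dichotomy ha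

/-- the squares of the Jacobsthal sums -/
lemma SS_sq_cases (n : ZMod p) (hn : ¬ IsSquare n) (a : ZMod p) (ha : a ≠ 0) :
    (qc p a = 1 → SS a ^ 2 = SS (1 : ZMod p) ^ 2) ∧ (qc p a = -1 → SS a ^ 2 = SS n ^ 2) := by
  have hn0 : n ≠ 0 := by rintro rfl; exact hn ⟨0, by simp⟩
  have hqn : qc p n = -1 := quadraticChar_neg_one_iff_not_isSquare.2 hn
  have hsq : ∀ t : ZMod p, t ≠ 0 → (qc p t) ^ 2 = 1 := fun t ht => quadraticChar_sq_one ht
  constructor
  · intro h
    rw [quadraticChar_one_iff_isSquare ha] at h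
    obtain ⟨t, rfl⟩ := h
    have ht : t ≠ 0 := by rintro rfl; simp at ha
    have h2 := SS_scale (1 : ZMod p) t ht
    rw [show (1 : ZMod p) * t ^ 2 = t * t by ring] at h2
    rw [h2, mul_pow, hsq t ht, one_mul]
  · intro h
    have h1 : qc p (a * n⁻¹) = 1 := by
      have h3 : qc p (a * n⁻¹) * qc p n = qc p a := by
        rw [← map_mul, inv_mul_cancel_right₀ hn0]
      rw [h, hqn] at h3
      linarith
    rw [quadraticChar_one_iff_isSquare (mul_ne_zero ha (inv_ne_zero hn0))] at h1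
    obtain ⟨t, ht⟩ := h1
    have ht0 : t ≠ 0 := by
      rintro rfl
      rw [mul_zero] at ht
      exact mul_ne_zero ha (inv_ne_zero hn0) ht
    have h2 := SS_scale n t ht0
    have h3 : n * t ^ 2 = a := by
      rw [show n * t ^ 2 = (t * t) * n by ring, ← ht, inv_mul_cancel_right₀ hn0]
    rw [h3] at h2
    rw [h2, mul_pow, hsq t ht0, one_mul]

/-- the numbers of the `a` with `SS a = s` and with `SS a = -s` agree -/
lemma card_neg (h2 : p ≠ 2) (s : ℤ) :
    ((univ : Finset (ZMod p)).filter (fun a => a ≠ 0 ∧ SS a = s)).card =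
      ((univ : Finset (ZMod p)).filter (fun a => a ≠ 0 ∧ SS a = -s)).card := by
  classical
  obtain ⟨g, hg⟩ : ∃ g : ZMod p, quadraticChar (ZMod p) g = -1 := quadraticChar_exists_neg_one (rc h2)
  have hg' : qc p g = -1 := hg
  have hg0 : g ≠ 0 := by
    rintro rfl
    simp at hg
  refine card_bij' (fun a _ => a * g ^ 2) (fun a _ => a * (g ^ 2)⁻¹) ?_ ?_ ?_ ?_
  · intro a ha
    rw [mem_filter] at ha ⊢
    refine ⟨mem_univ _, mul_ne_zero ha.2.1 (pow_ne_zero 2 hg0), ?_⟩
    rw [SS_scale a g hg0, hg', ha.2.2]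
    ring
  · intro a ha
    rw [mem_filter] at ha ⊢
    refine ⟨mem_univ _, mul_ne_zero ha.2.1 (inv_ne_zero (pow_ne_zero 2 hg0)), ?_⟩
    have h := SS_scale (a * (g ^ 2)⁻¹) g hg0
    rw [inv_mul_cancel_right₀ (pow_ne_zero 2 hg0), hg', ha.2.2] at h
    linarith
  · intro a _
    show a * g ^ 2 * (g ^ 2)⁻¹ = a
    exact mul_inv_cancel_right₀ (pow_ne_zero 2 hg0) a
  · intro a _
    show a * (g ^ 2)⁻¹ * g ^ 2 = a
    exact inv_mul_cancel_right₀ (pow_ne_zero 2 hg0) a

/-- representation of `4 p` -/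
lemma rep_iff (h2 : p ≠ 2) (h1 : qc p (-1) = 1) (n : ZMod p) (hn : ¬ IsSquare n) (s : ℤ) :
    (SS (1 : ZMod p) ^ 2 = s ^ 2 ∨ SS n ^ 2 = s ^ 2) ↔ ∃ w : ℤ, s ^ 2 + w ^ 2 = 4 * p := by
  have hJ := jacobsthal h2 h1 n hn
  have hp : p.Prime := hF.out
  have hodd : (p : ℤ) % 2 = 1 := by
    have := hp.eq_two_or_odd
    omega
  constructor
  · rintro (h | h)
    · exact ⟨SS n, by rw [← h, hJ]⟩
    · exact ⟨SS (1 : ZMod p), by rw [← h, ← hJ]; ring⟩
  · rintro ⟨w, hw⟩
    have par : ∀ u v : ℤ, u ^ 2 + v ^ 2 = 4 * p → ∃ u' v' : ℤ, u = 2 * u' ∧ v = 2 * v' ∧ u' ^ 2 + v' ^ 2 = p := by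
      intro u v h
      have hu : u % 2 = 0 := by
        by_contra hc
        have hu1 : u % 2 = 1 := by omega
        obtain ⟨u', hu'⟩ : ∃ u', u = 2 * u' + 1 := ⟨u / 2, by omega⟩
        rcases Int.emod_two_eq_zero_or_one v with hv | hv
        · obtain ⟨v', hv'⟩ : ∃ v', v = 2 * v' := ⟨v / 2, by omega⟩
          rw [hu', hv'] at h
          have : (2 : ℤ) * (2 * u' ^ 2 + 2 * u' + 2 * v' ^ 2 - 2 * p) = -1 := by linarith
          omega
        · obtain ⟨v', hv'⟩ : ∃ v', v = 2 * v' + 1 := ⟨v / 2, by omega⟩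
          rw [hu', hv'] at h
          have : (4 : ℤ) * (u' ^ 2 + u' + v' ^ 2 + v' - p) = -2 := by linarith
          omega
      obtain ⟨u', hu'⟩ : ∃ u', u = 2 * u' := ⟨u / 2, by omega⟩
      have hv : v % 2 = 0 := by
        by_contra hc
        obtain ⟨v', hv'⟩ : ∃ v', v = 2 * v' + 1 := ⟨v / 2, by omega⟩
        rw [hu', hv'] at h
        have : (4 : ℤ) * (u' ^ 2 + v' ^ 2 + v' - p) = -1 := by linarith
        omega
      obtain ⟨v', hv'⟩ : ∃ v', v = 2 * v' := ⟨v / 2, by omega⟩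
      refine ⟨u', v', hu', hv', ?_⟩
      rw [hu', hv'] at h
      linarith
    have parity : ∀ u v : ℤ, u ^ 2 + v ^ 2 = p → (u % 2 = 1 ∧ v % 2 = 0) ∨ (u % 2 = 0 ∧ v % 2 = 1) := by
      intro u v h
      rcases Int.emod_two_eq_zero_or_one u with hu | hu <;> rcases Int.emod_two_eq_zero_or_one v with hv | hv
      · exfalso
        obtain ⟨u', hu'⟩ : ∃ u', u = 2 * u' := ⟨u / 2, by omega⟩
        obtain ⟨v', hv'⟩ : ∃ v', v = 2 * v' := ⟨v / 2, by omega⟩
        rw [hu', hv'] at h
        have : (p : ℤ) = 2 * (2 * u' ^ 2 + 2 * v' ^ 2) := by linarith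
        omega
      · exact Or.inr ⟨hu, hv⟩
      · exact Or.inl ⟨hu, hv⟩
      · exfalso
        obtain ⟨u', hu'⟩ : ∃ u', u = 2 * u' + 1 := ⟨u / 2, by omega⟩
        obtain ⟨v', hv'⟩ : ∃ v', v = 2 * v' + 1 := ⟨v / 2, by omega⟩
        rw [hu', hv'] at h
        have : (p : ℤ) = 2 * (2 * u' ^ 2 + 2 * u' + 2 * v' ^ 2 + 2 * v' + 1) := by linarith
        omega
    obtain ⟨s', w', rfl, rfl, hsw⟩ := par s w hw
    obtain ⟨A, B, hA, hB, hAB⟩ := par _ _ hJ
    rw [hA, hB]
    rcases parity s' w' hsw with ⟨h3, h4⟩ | ⟨h3, h4⟩ <;> rcases parity A B hAB with ⟨h5, h6⟩ | ⟨h5, h6⟩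
    · left
      have := sq_unique hp hsw hAB h3 h5 h4
      linear_combination -4 * this
    · right
      have := sq_unique hp hsw (by rw [add_comm] at hAB; exact hAB) h3 h6 h4
      linear_combination -4 * this
    · right
      have h7 := sq_unique hp (by rw [add_comm] at hsw; exact hsw) hAB h4 h5 h3
      linear_combination 4 * h7 + 4 * hAB - 4 * hsw
    · left
      have h7 := sq_unique hp (by rw [add_comm] at hsw; exact hsw) (by rw [add_comm] at hAB; exact hAB) h4 h6 h3
      linear_combination 4 * h7 + 4 * hAB - 4 * hsw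

open Classical in
/-- **the distribution** -/
theorem card_SS (h2 : p ≠ 2) (s : ℤ) (hs : s ≠ 0) :
    4 * (((univ : Finset (ZMod p)).filter (fun a => a ≠ 0 ∧ SS a = s)).card : ℤ) =
      if ∃ w : ℤ, s ^ 2 + w ^ 2 = 4 * p then (p : ℤ) - 1 else 0 := by
  have hp : p.Prime := hF.out
  have hodd : (p : ℤ) % 2 = 1 := by
    have := hp.eq_two_or_odd
    omega
  rcases qc_val (p := p) (neg_ne_zero.2 one_ne_zero : (-1 : ZMod p) ≠ 0) with h1 | h1
  · obtain ⟨n, hn⟩ : ∃ n : ZMod p, ¬ IsSquare n := by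
      obtain ⟨g, hg⟩ := quadraticChar_exists_neg_one (F := ZMod p) (rc h2)
      exact ⟨g, quadraticChar_neg_one_iff_not_isSquare.1 hg⟩
    have hrep := rep_iff h2 h1 n hn s
    have hJ := jacobsthal h2 h1 n hn
    obtain ⟨u, hu⟩ : ∃ u : ℤ, u = if SS (1 : ZMod p) ^ 2 = s ^ 2 then 1 else 0 := ⟨_, rfl⟩
    obtain ⟨v, hv⟩ : ∃ v : ℤ, v = if SS n ^ 2 = s ^ 2 then 1 else 0 := ⟨_, rfl⟩
    -- at most one of the two happens
    have huv : u + v = if ∃ w : ℤ, s ^ 2 + w ^ 2 = 4 * p then 1 else 0 := by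
      rw [hu, hv, ← propext hrep]
      by_cases ha : SS (1 : ZMod p) ^ 2 = s ^ 2 <;> by_cases hb : SS n ^ 2 = s ^ 2
      · exfalso
        rw [ha, hb] at hJ
        have h3 : s ^ 2 = 2 * p := by linarith
        have h4 : (p : ℤ) ∣ s ^ 2 := ⟨2, by linarith⟩
        have h5 : (p : ℤ) ∣ s := (Nat.prime_iff_prime_int.1 hp).dvd_of_dvd_pow h4
        obtain ⟨c, hc⟩ := h5
        rw [hc] at h3
        have hp0 : (p : ℤ) ≠ 0 := by exact_mod_cast hp.ne_zero
        have h6 : (p : ℤ) * c ^ 2 = 2 := by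
          apply mul_left_cancel₀ hp0
          linear_combination h3
        have h7 : (p : ℤ) ∣ 2 := ⟨c ^ 2, h6.symm⟩
        have h8 : p ∣ 2 := by exact_mod_cast h7
        rcases (Nat.dvd_prime Nat.prime_two).1 h8 with h | h
        · exact hp.one_lt.ne' h
        · exact h2 h
      · rw [if_pos ha, if_neg hb, if_pos (Or.inl ha)]; norm_num
      · rw [if_neg ha, if_pos hb, if_pos (Or.inr hb)]; norm_num
      · rw [if_neg ha, if_neg hb, if_neg (not_or.2 ⟨ha, hb⟩)]; norm_num
    -- the number of the `a` with `SS a ^ 2 = s ^ 2`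
    have hsum : 2 * ∑ a ∈ (univ : Finset (ZMod p)).erase 0, (if SS a ^ 2 = s ^ 2 then (1 : ℤ) else 0) = (u + v) * ((p : ℤ) - 1) := by
      have h3 : ∀ a ∈ (univ : Finset (ZMod p)).erase 0, 2 * (if SS a ^ 2 = s ^ 2 then (1 : ℤ) else 0) =
          (u + v) + (u - v) * qc p a := by
        intro a ha
        have ha0 : a ≠ 0 := (mem_erase.1 ha).1
        obtain ⟨e1, e2⟩ := SS_sq_cases n hn a ha0
        rcases qc_val ha0 with h | h
        · rw [e1 h, h, ← hu]; ring
        · rw [e2 h, h, ← hv]; ring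
      rw [mul_sum, sum_congr rfl h3, sum_add_distrib, ← mul_sum, sum_const, card_erase_of_mem (mem_univ _), card_univ, ZMod.card]
      have h4 : ∑ a ∈ (univ : Finset (ZMod p)).erase 0, qc p a = 0 := by
        have h5 := sum_qc (p := p) h2
        rw [← add_sum_erase _ _ (mem_univ (0 : ZMod p))] at h5
        have h6 : qc p (0 : ZMod p) = 0 := quadraticChar_zero
        rw [h6, zero_add] at h5
        exact h5
      rw [h4, mul_zero, add_zero, nsmul_eq_mul]
      push_cast [Nat.cast_sub hp.one_lt.le]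
      ring
    have hsplit : ∑ a ∈ (univ : Finset (ZMod p)).erase 0, (if SS a ^ 2 = s ^ 2 then (1 : ℤ) else 0) =
        ((univ : Finset (ZMod p)).filter (fun a => a ≠ 0 ∧ SS a = s)).card +
        ((univ : Finset (ZMod p)).filter (fun a => a ≠ 0 ∧ SS a = -s)).card := by
      have h3 : ∀ a ∈ (univ : Finset (ZMod p)).erase 0, (if SS a ^ 2 = s ^ 2 then (1 : ℤ) else 0) =
          (if SS a = s then 1 else 0) + (if SS a = -s then 1 else 0) := by
        intro a _
        by_cases e1 : SS a = s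
        · have e2 : ¬ SS a = -s := by
            rw [e1]
            intro h
            exact hs (by linarith)
          rw [if_pos e1, if_neg e2, if_pos (by rw [e1])]
          norm_num
        · by_cases e2 : SS a = -s
          · rw [if_neg e1, if_pos e2, if_pos (by rw [e2]; ring)]
            norm_num
          · rw [if_neg e1, if_neg e2, if_neg]
            · norm_num
            · intro h
              rcases sq_eq_sq_iff_eq_or_eq_neg.1 h with h | h
              · exact e1 h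
              · exact e2 h
      rw [sum_congr rfl h3, sum_add_distrib]
      have h4 : ∀ z : ℤ, ∑ a ∈ (univ : Finset (ZMod p)).erase 0, (if SS a = z then (1 : ℤ) else 0) =
          ((univ : Finset (ZMod p)).filter (fun a => a ≠ 0 ∧ SS a = z)).card := by
        intro z
        rw [card_filter, Nat.cast_sum]
        rw [← add_sum_erase _ _ (mem_univ (0 : ZMod p))]
        rw [if_neg (by simp), Nat.cast_zero, zero_add]
        refine sum_congr rfl fun a ha => ?_
        have ha0 : a ≠ 0 := (mem_erase.1 ha).1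
        by_cases h : SS a = z
        · rw [if_pos h, if_pos ⟨ha0, h⟩]; norm_num
        · rw [if_neg h, if_neg (fun h' => h h'.2)]; norm_num
      rw [h4, h4]
    rw [← card_neg h2 s] at hsplit
    have hfin : 4 * (((univ : Finset (ZMod p)).filter (fun a => a ≠ 0 ∧ SS a = s)).card : ℤ) = (u + v) * ((p : ℤ) - 1) := by
      linarith
    rw [hfin, huv]
    split_ifs <;> ring
  · have h3 : ((univ : Finset (ZMod p)).filter (fun a => a ≠ 0 ∧ SS a = s)) = ∅ := by
      rw [filter_eq_empty_iff]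
      intro a _ h
      rw [SS_vanish h1 a] at h
      exact hs h.2.symm
    rw [h3, card_empty, if_neg]
    · simp
    · rintro ⟨w, hw⟩
      -- then `-1` is a square
      have hs0 : (s : ZMod p) ≠ 0 := by
        intro h
        rw [ZMod.intCast_zmod_eq_zero_iff_dvd] at h
        obtain ⟨c, hc⟩ := h
        have h4 : (p : ℤ) ∣ w ^ 2 := ⟨4 - p * c ^ 2, by rw [hc] at hw; linear_combination hw⟩
        obtain ⟨e, he⟩ := (Nat.prime_iff_prime_int.1 hp).dvd_of_dvd_pow h4
        rw [hc, he] at hw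
        have hp0 : (p : ℤ) ≠ 0 := by exact_mod_cast hp.ne_zero
        have h6 : (p : ℤ) * (c ^ 2 + e ^ 2) = 4 := by
          apply mul_left_cancel₀ hp0
          linear_combination hw
        have h7 : (p : ℤ) ∣ 4 := ⟨_, h6.symm⟩
        have h8 : p ∣ 2 ^ 2 := by exact_mod_cast h7
        exact h2 ((Nat.prime_dvd_prime_iff_eq hp Nat.prime_two).1 (hp.dvd_of_dvd_pow h8))
      have h5 : IsSquare (-1 : ZMod p) := by
        refine ⟨(w : ZMod p) * (s : ZMod p)⁻¹, ?_⟩
        have h6 : (s : ZMod p) ^ 2 + (w : ZMod p) ^ 2 = 0 := by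
          have := congrArg (Int.cast : ℤ → ZMod p) hw
          push_cast at this
          rw [this]
          simp
        field_simp
        linear_combination -h6
      have h7 := (quadraticChar_one_iff_isSquare (F := ZMod p) (neg_ne_zero.2 one_ne_zero)).2 h5
      have h8 : qc p (-1) = 1 := h7
      rw [h8] at h1
      norm_num at h1

end Pool.Agent.X35.CM
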